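import Pool.Agent.H50.NC.Targets

/-!
# Adjacent majors of a side
-/

set_option autoImplicit false

namespace Pool.Agent.H72.NCK

open Pool.Agent.H48.ER
open Pool.Agent.H50.NC

theorem two_other : ∀ i : Fin 3, ∃ p q : Fin 3, p ≠ q ∧ p ≠ i ∧ q ≠ i := by decide

theorem Mj_two {V : Type} {G : SimpleGraph V} {a : Fin 3 → V} {i : Fin 3} {w : V}
    (h : Mj G a i w) : ∃ p q : Fin 3, p ≠ q ∧ G.Adj w (a p) ∧ G.Adj w (a q) := by
  rcases h with h | ⟨h, j, hj, h'⟩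
  · obtain ⟨p, q, hpq, hp, hq⟩ := two_other i
    exact ⟨p, q, hpq, h p hp, h q hq⟩
  · exact ⟨i, j, hj.symm, h, h'⟩

theorem pf_F3 : T_F3 := by
  intro V G a b n P i S w w' hK hS hww hM _ hall
  obtain ⟨p, q, hpq, hp, hq⟩ := Mj_two hM
  have hadj : G.Adj (a p) (a q) := hS.pr.1.a_adj hpq
  exact hK w w' (a p) (a q) hww hp hq ((hall p).mp hp) ((hall q).mp hq) hadj

end Pool.Agent.H72.NCK
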